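import Pool.Agent.Helper44.GJ.Stmts

/-!
# Module GM5: values of the Gamma function
-/

open Finset MeasureTheory Filter Topology

namespace Pool.Agent.Helper44.GJ

open Pool.Agent.Helper44.GF Pool.Agent.Helper44.GN Pool.Agent.Helper44.GH

theorem gm5_rec (a : ℕ) (ha : 0 < a) (n : ℕ) : Real.Gamma ((a : ℝ) / 5 + n)
    = (((∏ i ∈ range n, (5 * i + a) : ℕ) : ℝ) / 5 ^ n) * Real.Gamma ((a : ℝ) / 5) := by
  have ha' : (0 : ℝ) < a := by exact_mod_cast ha
  induction n with
  | zero => simp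
  | succ n ih =>
    have h1 : ((a : ℝ) / 5 + ((n + 1 : ℕ) : ℝ)) = ((a : ℝ) / 5 + (n : ℝ)) + 1 := by push_cast; ring
    have h2 : ((a : ℝ) / 5 + (n : ℝ)) ≠ 0 := by positivity
    rw [h1, Real.Gamma_add_one h2, ih, prod_range_succ]
    push_cast
    field_simp
    ring

theorem gm5_up (m s : ℝ) (hm : 0 < m) (h0 : 0 < s) (h1 : s < 1) : Real.Gamma (m + s) ≤ Real.Gamma m * m ^ s := by
  have h := Real.Gamma_mul_add_mul_le_rpow_Gamma_mul_rpow_Gamma (s := m) (t := m + 1) (a := 1 - s)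
    (b := s) hm (by linarith) (by linarith) h0 (by ring)
  have e1 : (1 - s) * m + s * (m + 1) = m + s := by ring
  have hG : 0 < Real.Gamma m := Real.Gamma_pos_of_pos hm
  rw [e1, Real.Gamma_add_one hm.ne', Real.mul_rpow hm.le hG.le] at h
  refine h.trans (le_of_eq ?_)
  have e2 : Real.Gamma m ^ (1 - s) * (m ^ s * Real.Gamma m ^ s) =
      m ^ s * (Real.Gamma m ^ (1 - s) * Real.Gamma m ^ s) := by ring
  rw [e2, ← Real.rpow_add hG, sub_add_cancel, Real.rpow_one]
  ring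

theorem gm5_low (m s : ℝ) (hm : 0 < m) (h0 : 0 < s) (h1 : s < 1) :
    Real.Gamma (m + 1) ≤ Real.Gamma (m + s) * (m + s) ^ (1 - s) := by
  have h := Real.Gamma_mul_add_mul_le_rpow_Gamma_mul_rpow_Gamma (s := m + s) (t := m + s + 1) (a := s)
    (b := 1 - s) (by linarith) (by linarith) h0 (by linarith) (by ring)
  have e1 : s * (m + s) + (1 - s) * (m + s + 1) = m + 1 := by ring
  have hms : 0 < m + s := by linarith
  have hG : 0 < Real.Gamma (m + s) := Real.Gamma_pos_of_pos hms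
  rw [e1, Real.Gamma_add_one hms.ne', Real.mul_rpow hms.le hG.le] at h
  refine h.trans (le_of_eq ?_)
  have e2 : Real.Gamma (m + s) ^ s * ((m + s) ^ (1 - s) * Real.Gamma (m + s) ^ (1 - s)) =
      (m + s) ^ (1 - s) * (Real.Gamma (m + s) ^ s * Real.Gamma (m + s) ^ (1 - s)) := by ring
  rw [e2, ← Real.rpow_add hG, add_sub_cancel, Real.rpow_one]
  ring

theorem gm5_pow (x c : ℝ) (a : ℕ) (hx : 0 ≤ x) (hc : 0 ≤ c) (h : x ^ a ≤ c ^ 5) : x ^ ((a : ℝ) / 5) ≤ c := by
  have h1 : x ^ ((a : ℝ) / 5) = (x ^ a) ^ (1 / 5 : ℝ) := by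
    rw [← Real.rpow_natCast, ← Real.rpow_mul hx]
    congr 1
    ring
  have h2 : c = (c ^ 5) ^ (1 / 5 : ℝ) := by
    rw [← Real.rpow_natCast, ← Real.rpow_mul hc]
    norm_num
  rw [h1, h2]
  exact Real.rpow_le_rpow (pow_nonneg hx a) h (by norm_num)

theorem gm5_fac (n : ℕ) : Real.Gamma ((n : ℝ) + 1) = (n.factorial : ℕ) := Real.Gamma_nat_eq_factorial n

theorem gm5_65_up : Real.Gamma (6 / 5) ≤ 9205 / 10000 := by
  have h1 := gm5_up 32 (1 / 5) (by norm_num) (by norm_num) (by norm_num)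
  have h2 : (32 : ℝ) ^ (1 / 5 : ℝ) ≤ 2 := by
    have := gm5_pow 32 2 1 (by norm_num) (by norm_num) (by norm_num)
    simpa using this
  have h3 := gm5_rec 6 (by norm_num) 31
  have e1 : ((6 : ℕ) : ℝ) / 5 + (31 : ℕ) = 32 + 1 / 5 := by norm_num
  have e2 : Real.Gamma 32 = ((Nat.factorial 31 : ℕ) : ℝ) := by
    rw [← gm5_fac 31]
    norm_num
  have hp : (∏ i ∈ range 31, (5 * i + 6) : ℕ) = 83197503500486781140781888229567335358327934604181241856 := by
    decide +kernel
  have hf : (Nat.factorial 31 : ℕ) = 8222838654177922817725562880000000 := by decide +kernel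
  rw [e1, hp] at h3
  rw [e2, hf, h3] at h1
  have h4 := h1.trans (mul_le_mul_of_nonneg_left h2 (by positivity))
  have e3 : Real.Gamma (((6 : ℕ) : ℝ) / 5) = Real.Gamma (6 / 5) := by norm_num
  rw [e3] at h4
  push_cast at h4
  have h5 : (0 : ℝ) < 83197503500486781140781888229567335358327934604181241856 / 5 ^ 31 := by positivity
  rw [← le_div_iff₀' h5] at h4
  refine h4.trans ?_
  norm_num

theorem gm5_75_up : Real.Gamma (7 / 5) ≤ 8907 / 10000 := by
  have h1 := gm5_up 32 (2 / 5) (by norm_num) (by norm_num) (by norm_num)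
  have h2 : (32 : ℝ) ^ (2 / 5 : ℝ) ≤ 4 := by
    have := gm5_pow 32 4 2 (by norm_num) (by norm_num) (by norm_num)
    simpa using this
  have h3 := gm5_rec 7 (by norm_num) 31
  have e1 : ((7 : ℕ) : ℝ) / 5 + (31 : ℕ) = 32 + 2 / 5 := by norm_num
  have e2 : Real.Gamma 32 = ((Nat.factorial 31 : ℕ) : ℝ) := by
    rw [← gm5_fac 31]
    norm_num
  have hp : (∏ i ∈ range 31, (5 * i + 7) : ℕ) = 171976412921791735947000941141358232476331408172324487168 := by
    decide +kernel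
  have hf : (Nat.factorial 31 : ℕ) = 8222838654177922817725562880000000 := by decide +kernel
  rw [e1, hp] at h3
  rw [e2, hf, h3] at h1
  have h4 := h1.trans (mul_le_mul_of_nonneg_left h2 (by positivity))
  have e3 : Real.Gamma (((7 : ℕ) : ℝ) / 5) = Real.Gamma (7 / 5) := by norm_num
  rw [e3] at h4
  push_cast at h4
  have h5 : (0 : ℝ) < 171976412921791735947000941141358232476331408172324487168 / 5 ^ 31 := by positivity
  rw [← le_div_iff₀' h5] at h4
  refine h4.trans ?_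
  norm_num

theorem gm5_65_low : 906 / 1000 ≤ Real.Gamma (6 / 5) := by
  have h1 := gm5_low 8 (1 / 5) (by norm_num) (by norm_num) (by norm_num)
  have h2 : (8 + 1 / 5 : ℝ) ^ (1 - 1 / 5 : ℝ) ≤ 54 / 10 := by
    have := gm5_pow (8 + 1 / 5) (54 / 10) 4 (by norm_num) (by norm_num) (by norm_num)
    have e : (1 - 1 / 5 : ℝ) = ((4 : ℕ) : ℝ) / 5 := by norm_num
    rw [e]
    exact this
  have h3 := gm5_rec 6 (by norm_num) 7
  have e1 : ((6 : ℕ) : ℝ) / 5 + (7 : ℕ) = 8 + 1 / 5 := by norm_num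
  have e2 : Real.Gamma (8 + 1) = ((Nat.factorial 8 : ℕ) : ℝ) := by
    rw [← gm5_fac 8]
    norm_num
  have hp : (∏ i ∈ range 7, (5 * i + 6) : ℕ) = 643458816 := by decide +kernel
  have hf : (Nat.factorial 8 : ℕ) = 40320 := by decide +kernel
  rw [e1, hp] at h3
  have hG : 0 < Real.Gamma (8 + 1 / 5) := Real.Gamma_pos_of_pos (by norm_num)
  have h4 := h1.trans (mul_le_mul_of_nonneg_left h2 hG.le)
  rw [e2, hf, h3] at h4
  have e3 : Real.Gamma (((6 : ℕ) : ℝ) / 5) = Real.Gamma (6 / 5) := by norm_num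
  rw [e3] at h4
  push_cast at h4
  nlinarith

theorem gm5_75_low : 88503 / 100000 ≤ Real.Gamma (7 / 5) := by
  have h1 := gm5_low 62 (2 / 5) (by norm_num) (by norm_num) (by norm_num)
  have h2 : (62 + 2 / 5 : ℝ) ^ (1 - 2 / 5 : ℝ) ≤ 1195 / 100 := by
    have := gm5_pow (62 + 2 / 5) (1195 / 100) 3 (by norm_num) (by norm_num) (by norm_num)
    have e : (1 - 2 / 5 : ℝ) = ((3 : ℕ) : ℝ) / 5 := by norm_num
    rw [e]
    exact this
  have h3 := gm5_rec 7 (by norm_num) 61
  have e1 : ((7 : ℕ) : ℝ) / 5 + (61 : ℕ) = 62 + 2 / 5 := by norm_num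
  have e2 : Real.Gamma (62 + 1) = ((Nat.factorial 62 : ℕ) : ℝ) := by
    rw [← gm5_fac 62]
    norm_num
  have hp : (∏ i ∈ range 61, (5 * i + 7) : ℕ) = 12904400703479654469393926357780581617075791071970821606543967858861784587979662668846038230986628525333810327809592296873132032 := by
    decide +kernel
  have hf : (Nat.factorial 62 : ℕ) = 31469973260387937525653122354950764088012280797258232192163168247821107200000000000000 := by
    decide +kernel
  rw [e1, hp] at h3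
  have hG : 0 < Real.Gamma (62 + 2 / 5) := Real.Gamma_pos_of_pos (by norm_num)
  have h4 := h1.trans (mul_le_mul_of_nonneg_left h2 hG.le)
  rw [e2, hf, h3] at h4
  have e3 : Real.Gamma (((7 : ℕ) : ℝ) / 5) = Real.Gamma (7 / 5) := by norm_num
  rw [e3] at h4
  push_cast at h4
  nlinarith

theorem gm5_sqrt5 : 2.236067 < Real.sqrt 5 ∧ Real.sqrt 5 < 2.236068 := by
  constructor
  · rw [Real.lt_sqrt (by norm_num)]
    norm_num
  · rw [Real.sqrt_lt' (by norm_num)]
    norm_num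

/-- squares of the sines -/
theorem gm5_sin : Real.sin (Real.pi / 5) ^ 2 = (5 - Real.sqrt 5) / 8 ∧
    Real.sin (2 * (Real.pi / 5)) ^ 2 = (5 + Real.sqrt 5) / 8 := by
  have h5 : Real.sqrt 5 ^ 2 = 5 := Real.sq_sqrt (by norm_num)
  have hc : Real.cos (Real.pi / 5) = (1 + Real.sqrt 5) / 4 := Real.cos_pi_div_five
  have h1 : Real.sin (Real.pi / 5) ^ 2 = (5 - Real.sqrt 5) / 8 := by
    have h2 := Real.sin_sq_add_cos_sq (Real.pi / 5)
    rw [hc] at h2
    nlinarith
  refine ⟨h1, ?_⟩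
  rw [Real.sin_two_mul, mul_pow, mul_pow, h1, hc]
  nlinarith

theorem gm5_prod1 : Real.Gamma (6 / 5) * Real.Gamma (4 / 5) = 1 / 5 * (Real.pi / Real.sin (Real.pi / 5)) := by
  have h := Real.Gamma_mul_Gamma_one_sub (1 / 5)
  have e1 : (1 - 1 / 5 : ℝ) = 4 / 5 := by norm_num
  have e2 : Real.pi * (1 / 5) = Real.pi / 5 := by ring
  rw [e1, e2] at h
  have e3 : (6 / 5 : ℝ) = 1 / 5 + 1 := by norm_num
  rw [← h, e3, Real.Gamma_add_one (by norm_num)]
  ring

theorem gm5_prod2 : Real.Gamma (7 / 5) * Real.Gamma (3 / 5) = 2 / 5 * (Real.pi / Real.sin (2 * (Real.pi / 5))) := by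
  have h := Real.Gamma_mul_Gamma_one_sub (2 / 5)
  have e1 : (1 - 2 / 5 : ℝ) = 3 / 5 := by norm_num
  have e2 : Real.pi * (2 / 5) = 2 * (Real.pi / 5) := by ring
  rw [e1, e2] at h
  have e3 : (7 / 5 : ℝ) = 2 / 5 + 1 := by norm_num
  rw [← h, e3, Real.Gamma_add_one (by norm_num)]
  ring

theorem st_GM5 : ST_GM5 := by
  have a1 := gm5_65_up
  have a2 := gm5_65_low
  have a3 := gm5_75_up
  have a4 := gm5_75_low
  obtain ⟨s1, s2⟩ := gm5_sin
  obtain ⟨r1, r2⟩ := gm5_sqrt5
  have p1 : 3.141592 < Real.pi := Real.pi_gt_d6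
  have p2 : Real.pi < 3.141593 := Real.pi_lt_d6
  have hpi : 0 < Real.pi := Real.pi_pos
  have q1 : 0 < Real.sin (Real.pi / 5) := Real.sin_pos_of_pos_of_lt_pi (by positivity) (by linarith)
  have q2 : 0 < Real.sin (2 * (Real.pi / 5)) := Real.sin_pos_of_pos_of_lt_pi (by positivity) (by linarith)
  have u1 : 0.587785 < Real.sin (Real.pi / 5) := by
    by_contra hcon
    rw [not_lt] at hcon
    nlinarith
  have u2 : Real.sin (Real.pi / 5) < 0.587786 := by
    by_contra hcon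
    rw [not_lt] at hcon
    nlinarith
  have u3 : 0.951056 < Real.sin (2 * (Real.pi / 5)) := by
    by_contra hcon
    rw [not_lt] at hcon
    nlinarith
  have u4 : Real.sin (2 * (Real.pi / 5)) < 0.951057 := by
    by_contra hcon
    rw [not_lt] at hcon
    nlinarith
  refine ⟨by nlinarith, by nlinarith, ?_, ?_, ?_, ?_⟩
  · rw [gm5_prod1]
    have h1 : 3.141592 / 0.587786 ≤ Real.pi / Real.sin (Real.pi / 5) :=
      div_le_div₀ hpi.le p1.le q1 u2.le
    refine le_trans ?_ (mul_le_mul_of_nonneg_left h1 (by norm_num))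
    norm_num
  · rw [gm5_prod1]
    have h1 : Real.pi / Real.sin (Real.pi / 5) ≤ 3.141593 / 0.587785 :=
      div_le_div₀ (by norm_num) p2.le (by norm_num) u1.le
    refine le_trans (mul_le_mul_of_nonneg_left h1 (by norm_num)) ?_
    norm_num
  · rw [gm5_prod2]
    have h1 : 3.141592 / 0.951057 ≤ Real.pi / Real.sin (2 * (Real.pi / 5)) :=
      div_le_div₀ hpi.le p1.le q2 u4.le
    refine le_trans ?_ (mul_le_mul_of_nonneg_left h1 (by norm_num))
    norm_num
  · rw [gm5_prod2]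
    have h1 : Real.pi / Real.sin (2 * (Real.pi / 5)) ≤ 3.141593 / 0.951056 :=
      div_le_div₀ (by norm_num) p2.le (by norm_num) u3.le
    refine le_trans (mul_le_mul_of_nonneg_left h1 (by norm_num)) ?_
    norm_num

end Pool.Agent.Helper44.GJ
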